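import Mathlib
import Pool.Agent.W684.FM.Ambient
import Pool.Agent.U19.HCO.Tight

/-!
# `MP_5b5309_lc`: compact spaces all of whose closed subspaces are c.o., under Martin's axiom

(1) Martin's axiom for `ℵ₁` dense sets can be forced, preserving all cardinals.
(2) Under this axiom, for compact Hausdorff spaces all of whose infinite closed subspaces are c.o.
spaces: the countably tight ones are countable, closed subspaces with countably many isolated points
are countable, closures of countable sets are countable, and an uncountable one has a closed subspace
of size `ℵ₁` in which exactly one point has no countable neighbourhoods, and this point is not in the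
closure of any countable set of other points (as in the space `ω₁ + 1`).
(3) In ZFC, if there are only countably many isolated points, then all discrete subspaces are
countable.

The proofs in (2) combine the copies of closed subspaces as clopen subspaces with special cases of
theorems of Szentmiklóssy and Balogh.
-/

set_option autoImplicit false

namespace Pool.Agent.Results.MP_5b5309_lc.UnderMartin

open Cardinal Topology
open Pool.Agent.W684 Pool.Agent.W684.FM Pool.Agent.Helper669.Forcing

/-- c.o. spaces (used for compact Hausdorff spaces): infinite, and every closed subspace is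
homeomorphic to a clopen subspace. -/
def IsCO (X : Type) [TopologicalSpace X] : Prop :=
  Infinite X ∧ ∀ F : Set X, IsClosed F → ∃ U : Set X, IsClopen U ∧ Nonempty (F ≃ₜ U)

/-- Hereditarily c.o.: every infinite closed subspace is a c.o. space. -/
def HereditarilyCO (X : Type) [TopologicalSpace X] : Prop :=
  ∀ F : Set X, IsClosed F → Infinite F → IsCO F

/-- Countable tightness. -/
def CountablyTight (X : Type) [TopologicalSpace X] : Prop :=
  ∀ (A : Set X) (x : X), x ∈ closure A → ∃ C ⊆ A, C.Countable ∧ x ∈ closure C

/-- **Main theorem.** (1) There is a notion of forcing which preserves all cardinals, and `ω₁`,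
and forces Martin's axiom for `ℵ₁` dense sets; the forced form of the axiom is equivalent to the
usual one. (2) Under Martin's axiom for `ℵ₁` dense sets let `X` be a compact Hausdorff space all of
whose infinite closed subspaces are c.o. spaces. If `X` is countably tight, then `X` is countable.
Every closed subspace with only countably many isolated points is countable. The closure of every
countable set is countable. If `X` is uncountable, then some point `p` without countable
neighbourhoods has a closed neighbourhood `N` of size `ℵ₁` all of whose other points have countable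
neighbourhoods, and `p` is not in the closure of any countable set which does not contain `p`.
(3) In ZFC, if such a space `X` has only countably many isolated points, then every discrete
subspace of `X` is countable. -/
theorem result :
    ((∃ (P : Type) (_ : Preorder P), Nonempty P ∧ ∀ p : P,
        p ∈ CardinalsPreserved.{0, 0} P ∧ p ∈ OmegaOnePreserved P ∧ p ∈ MartinHolds P Om1) ∧
      (MartinFor Om1 ↔ MartinAxiomCard ℵ₁)) ∧
    (MartinAxiomCard ℵ₁ →
      ∀ (X : Type) [TopologicalSpace X] [CompactSpace X] [T2Space X], HereditarilyCO X →
      (CountablyTight X → Countable X) ∧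
      (∀ F : Set X, IsClosed F →
        {x : X | x ∈ F ∧ ∃ V : Set X, IsOpen V ∧ V ∩ F = {x}}.Countable → F.Countable) ∧
      (∀ C : Set X, C.Countable → (closure C).Countable) ∧
      (¬ Countable X → ∃ (p : X) (N : Set X), N ∈ 𝓝 p ∧ IsClosed N ∧ #N = ℵ₁ ∧
        (∀ M ∈ 𝓝 p, ¬ M.Countable) ∧
        (∀ y ∈ N, y ≠ p → ∃ O : Set X, IsOpen O ∧ y ∈ O ∧ O.Countable) ∧
        ∀ C : Set X, C.Countable → p ∉ C → p ∉ closure C)) ∧
    (∀ (X : Type) [TopologicalSpace X] [CompactSpace X] [T2Space X], HereditarilyCO X →
      {x : X | IsOpen {x}}.Countable → ∀ D : Set X, DiscreteTopology D → D.Countable) := by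
  refine ⟨⟨exists_forcing Om1, ?_⟩, ?_, ?_⟩
  · rw [martinFor_om1_iff, martinAxiomAleph1_iff]
  · intro hMA X _ _ _ hX
    have hMA' : Pool.Agent.Results.MP_f6eb07_gt.PowersMA.MartinAxiomAlephOne :=
      fun P _ _ hP 𝒟 h𝒟 hd => hMA P hP 𝒟 h𝒟 hd
    have hX' : Pool.Agent.U19.HCO.HereditarilyCO X := hX
    refine ⟨fun ht => Pool.Agent.U19.HCO.countable_of_tight hMA' hX' ht,
      fun F hF hI => Pool.Agent.U19.HCO.countable_closed hMA' hX' hF hI,
      fun C hC => Pool.Agent.U19.HCO.countable_closure hMA' hX' hC, fun hXu => ?_⟩
    exact Pool.Agent.U19.HCO.structure_point hMA' hX' fun h => hXu (Set.countable_univ_iff.1 h)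
  · intro X _ _ _ hX hI D hD
    have hX' : Pool.Agent.U19.HCO.HereditarilyCO X := hX
    refine Pool.Agent.U19.HCO.spread_rel hX' isClosed_univ (hI.mono ?_) D (Set.subset_univ _) hD
    rintro x ⟨-, V, hV, hVx⟩
    rw [Set.inter_univ] at hVx
    show IsOpen {x}
    rw [← hVx]
    exact hV

end Pool.Agent.Results.MP_5b5309_lc.UnderMartin
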